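import Mathlib
import Pool.Agent.Erdos456.Mertens

/-! Sums of `d(m)^K / m` over smooth numbers (for the modules NC4, NC6 of project BW) -/

set_option autoImplicit false

open Filter Topology

namespace Pool.Agent.L0h37.BW

/-- `d(m)^K / m` -/
noncomputable def fK (K m : ℕ) : ℝ := (m.divisors.card : ℝ) ^ K / m

theorem fK_nonneg (K m : ℕ) : 0 ≤ fK K m := by unfold fK; positivity

theorem fK_one (K : ℕ) : fK K 1 = 1 := by simp [fK]

theorem fK_mul (K : ℕ) {m n : ℕ} (h : Nat.Coprime m n) : fK K (m * n) = fK K m * fK K n := by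
  unfold fK
  rw [Nat.Coprime.card_divisors_mul h]
  push_cast
  rw [mul_pow, mul_div_mul_comm]

theorem fK_pow (K : ℕ) {p : ℕ} (hp : p.Prime) (n : ℕ) : fK K (p ^ n) = ((n : ℝ) + 1) ^ K / (p : ℝ) ^ n := by
  unfold fK
  rw [Nat.divisors_prime_pow hp, Finset.card_map, Finset.card_range]
  push_cast
  rfl

theorem summable_loc (K : ℕ) : Summable fun n : ℕ => ((n : ℝ) + 2) ^ K / 2 ^ n := by
  have h1 := summable_pow_mul_geometric_of_norm_lt_one (R := ℝ) K (r := 1 / 2)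
    (by rw [Real.norm_of_nonneg (by norm_num)]; norm_num)
  have h2 := ((summable_nat_add_iff 2).2 h1).mul_left 4
  refine h2.congr fun n => ?_
  have h3 : (1 / 2 : ℝ) ^ (n + 2) * 4 = 1 / 2 ^ n := by
    rw [pow_add, one_div_pow]
    ring
  push_cast
  calc (4 : ℝ) * (((n : ℝ) + 2) ^ K * (1 / 2) ^ (n + 2)) =
        ((n : ℝ) + 2) ^ K * ((1 / 2) ^ (n + 2) * 4) := by ring
    _ = _ := by rw [h3]; ring

/-- the constant -/
noncomputable def CK (K : ℕ) : ℝ := ∑' n : ℕ, ((n : ℝ) + 2) ^ K / 2 ^ n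

theorem CK_nonneg (K : ℕ) : 0 ≤ CK K := tsum_nonneg fun n => by positivity

theorem loc_le (K : ℕ) {p : ℕ} (hp : p.Prime) (n : ℕ) :
    fK K (p ^ (n + 1)) ≤ (1 / p : ℝ) * (((n : ℝ) + 2) ^ K / 2 ^ n) := by
  rw [fK_pow K hp]
  have hp2 : (2 : ℝ) ≤ p := by exact_mod_cast hp.two_le
  have h1 : (2 : ℝ) ^ n ≤ (p : ℝ) ^ n := pow_le_pow_left₀ (by norm_num) hp2 n
  push_cast
  have h2 : ((n : ℝ) + 1 + 1) ^ K / (p : ℝ) ^ (n + 1) = (1 / p : ℝ) * (((n : ℝ) + 2) ^ K / p ^ n) := by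
    rw [pow_succ]
    field_simp
    ring
  rw [h2]
  gcongr

theorem loc_summable (K : ℕ) {p : ℕ} (hp : p.Prime) : Summable fun n : ℕ => fK K (p ^ n) := by
  rw [← summable_nat_add_iff 1]
  exact Summable.of_nonneg_of_le (fun n => fK_nonneg _ _) (fun n => loc_le K hp n)
    ((summable_loc K).mul_left _)

theorem loc_tsum (K : ℕ) {p : ℕ} (hp : p.Prime) :
    ∑' n : ℕ, fK K (p ^ n) ≤ 1 + CK K / p := by
  rw [(loc_summable K hp).tsum_eq_zero_add, pow_zero, fK_one]
  gcongr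
  calc ∑' n : ℕ, fK K (p ^ (n + 1)) ≤ ∑' n : ℕ, (1 / p : ℝ) * (((n : ℝ) + 2) ^ K / 2 ^ n) :=
        Summable.tsum_le_tsum (fun n => loc_le K hp n)
          ((summable_nat_add_iff 1).2 (loc_summable K hp)) ((summable_loc K).mul_left _)
    _ = CK K / p := by rw [tsum_mul_left, CK]; ring

theorem smooth_summable (K N : ℕ) :
    Summable ((Nat.smoothNumbers N).indicator (fK K)) ∧
    ∑' m, (Nat.smoothNumbers N).indicator (fK K) m ≤
      Real.exp (CK K * ∑ p ∈ N.primesBelow, (1 : ℝ) / p) := by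
  obtain ⟨h1, h2⟩ := EulerProduct.summable_and_hasSum_smoothNumbers_prod_primesBelow_tsum
    (f := fK K) (fK_one K) (fun {m n} h => fK_mul K h)
    (fun {p} hp => (loc_summable K hp).congr fun n => (Real.norm_of_nonneg (fK_nonneg _ _)).symm) N
  refine ⟨summable_subtype_iff_indicator.1 h2.summable, ?_⟩
  rw [← tsum_subtype, h2.tsum_eq, Finset.mul_sum, Real.exp_sum]
  refine Finset.prod_le_prod (fun p hp => tsum_nonneg fun n => fK_nonneg _ _) fun p hp => ?_
  refine (loc_tsum K (Nat.prime_of_mem_primesBelow hp)).trans ?_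
  have := Real.add_one_le_exp (CK K * (1 / p))
  rw [mul_one_div] at this
  rw [mul_one_div]
  linarith

theorem smooth_sum_le (K N : ℕ) (F : Finset ℕ) (hF : ∀ m ∈ F, m ∈ Nat.smoothNumbers N) :
    ∑ m ∈ F, fK K m ≤ Real.exp (CK K * ∑ p ∈ N.primesBelow, (1 : ℝ) / p) := by
  refine le_trans ?_ (smooth_summable K N).2
  have h1 : ∑ m ∈ F, fK K m = ∑ m ∈ F, (Nat.smoothNumbers N).indicator (fK K) m :=
    Finset.sum_congr rfl fun m hm => (Set.indicator_of_mem (hF m hm) _).symm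
  rw [h1]
  exact (smooth_summable K N).1.sum_le_tsum F fun m _ =>
    Set.indicator_nonneg (fun m _ => fK_nonneg K m) m

/-- a bound for the product over the primes up to `q` -/
theorem exp_le (c : ℝ) (hc : 0 ≤ c) : ∃ C : ℝ, 0 ≤ C ∧ ∀ q : ℕ, 1 ≤ q →
    Real.exp (c * ∑ p ∈ (q + 1).primesBelow, (1 : ℝ) / p) ≤ C * (q : ℝ) ^ (1 / 4 : ℝ) := by
  obtain ⟨M, hM⟩ := Pool.Agent.Erdos456.Mert.mertens_inv
  have hpb : ∀ q : ℕ, (q + 1).primesBelow = (Finset.Icc 1 q).filter Nat.Prime := by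
    intro q
    ext p
    rw [Nat.mem_primesBelow, Finset.mem_filter, Finset.mem_Icc]
    constructor
    · rintro ⟨h1, h2⟩
      exact ⟨⟨h2.one_lt.le, by omega⟩, h2⟩
    · rintro ⟨⟨h1, h2⟩, h3⟩
      exact ⟨by omega, h3⟩
  set c' := c + 1 with hc'
  have hc'0 : 0 < c' := by positivity
  set C0 := Real.exp (c * M) * (4 * c') ^ c with hC0
  have h3 : ∀ q : ℕ, 3 ≤ q → Real.exp (c * ∑ p ∈ (q + 1).primesBelow, (1 : ℝ) / p) ≤
      C0 * (q : ℝ) ^ (1 / 4 : ℝ) := by
    intro q hq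
    have hq3 : (3 : ℝ) ≤ q := by exact_mod_cast hq
    have hq0 : (0 : ℝ) < q := by linarith
    have hlog : 0 < Real.log q := Real.log_pos (by linarith)
    have h4 := (abs_le.1 (hM q hq)).2
    rw [hpb]
    have h5 : ∑ p ∈ (Finset.Icc 1 q).filter Nat.Prime, (1 : ℝ) / p ≤ M + Real.log (Real.log q) := by
      linarith
    calc Real.exp (c * ∑ p ∈ (Finset.Icc 1 q).filter Nat.Prime, (1 : ℝ) / p)
        ≤ Real.exp (c * (M + Real.log (Real.log q))) :=
          Real.exp_le_exp.2 (mul_le_mul_of_nonneg_left h5 hc)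
      _ = Real.exp (c * M) * (Real.log q) ^ c := by
          rw [mul_add, Real.exp_add, Real.rpow_def_of_pos hlog]
          ring_nf
      _ ≤ Real.exp (c * M) * ((q : ℝ) ^ (1 / (4 * c')) / (1 / (4 * c'))) ^ c := by
          gcongr
          exact Real.log_le_rpow_div hq0.le (by positivity)
      _ = Real.exp (c * M) * (4 * c') ^ c * (q : ℝ) ^ (1 / (4 * c') * c) := by
          rw [div_div_eq_mul_div, div_one, Real.mul_rpow (by positivity) (by positivity),
            ← Real.rpow_mul hq0.le]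
          ring
      _ ≤ C0 * (q : ℝ) ^ (1 / 4 : ℝ) := by
          rw [hC0]
          gcongr
          · linarith
          · rw [div_mul_eq_mul_div, one_mul, div_le_div_iff₀ (by positivity) (by norm_num), hc']
            linarith
  refine ⟨C0 * (3 : ℝ) ^ (1 / 4 : ℝ), by positivity, fun q hq => ?_⟩
  have h31 : (1 : ℝ) ≤ (3 : ℝ) ^ (1 / 4 : ℝ) := Real.one_le_rpow (by norm_num) (by norm_num)
  have hC00 : 0 ≤ C0 := by positivity
  by_cases h : 3 ≤ q
  · refine (h3 q h).trans ?_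
    have : 0 ≤ (q : ℝ) ^ (1 / 4 : ℝ) := by positivity
    gcongr
    nlinarith
  · have hsub : (q + 1).primesBelow ⊆ (3 + 1).primesBelow := by
      intro p hp
      rw [Nat.mem_primesBelow] at hp ⊢
      exact ⟨by omega, hp.2⟩
    have h4 := h3 3 le_rfl
    have h5 : Real.exp (c * ∑ p ∈ (q + 1).primesBelow, (1 : ℝ) / p) ≤
        Real.exp (c * ∑ p ∈ (3 + 1 : ℕ).primesBelow, (1 : ℝ) / (p : ℕ)) := by
      apply Real.exp_le_exp.2
      apply mul_le_mul_of_nonneg_left _ hc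
      exact Finset.sum_le_sum_of_subset_of_nonneg hsub fun p _ _ => by positivity
    refine h5.trans (h4.trans ?_)
    have h6 : (1 : ℝ) ≤ (q : ℝ) ^ (1 / 4 : ℝ) :=
      Real.one_le_rpow (by exact_mod_cast hq) (by norm_num)
    push_cast
    have h7 : 0 ≤ C0 * (3 : ℝ) ^ (1 / 4 : ℝ) := by positivity
    nlinarith

end Pool.Agent.L0h37.BW
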